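import Pool.Agent.Y89.TW.Stm
import Pool.Agent.Y998.TS.MAX
import Pool.Agent.Y165.TS.COMM
import Pool.Agent.Y259.TS.Mono

set_option autoImplicit false

/-!
Job TW-CEN: the centre of the even part of the Clifford algebra.
-/

open Matrix Finset

namespace Pool.Agent.Y936.TW

open Pool.Agent.Y89.TS Pool.Agent.Y998.TS

section
variable {N : Type} [Fintype N] [DecidableEq N] {n : ℕ} {Γ : Fin n → Matrix N N ℂ}

theorem mon (hΓ : Clf Γ) : Mon Γ := by
  obtain ⟨h1, h2, h3, h4⟩ := Pool.Agent.Y259.TS.t_mono N n Γ hΓ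
  exact ⟨hΓ.sq, h1, h2, h3, h4⟩

/-- the sign of the exchange of a generator and an even monomial -/
noncomputable def sg (i : Fin n) (s : Finset (Fin n)) : ℂ := if i ∈ s then -1 else 1

theorem gen (h : Mon Γ) {s : Finset (Fin n)} (hs : Even s.card) (i : Fin n) :
    Γ i * mono Γ s = sg i s • (mono Γ s * Γ i) := by
  unfold sg
  by_cases hi : i ∈ s
  · have h1 : s ∩ {i} = {i} := Finset.inter_singleton_of_mem hi
    have h2 := h.ac (s := s) (t := {i}) hs (by rw [h1]; simp)
    rw [h.one] at h2
    rw [if_pos hi, neg_one_smul, h2, neg_neg]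
  · have h1 : s ∩ {i} = ∅ := Finset.inter_singleton_of_notMem hi
    have h2 := h.cm (s := s) (t := {i}) hs (by rw [h1]; simp)
    rw [h.one] at h2
    rw [if_neg hi, one_smul, h2]

theorem kill [Nonempty N] (h : Mon Γ) {c : Finset (Fin n) → ℂ}
    (hc : ∀ s, ¬ Even s.card → c s = 0) (B B' : Matrix N N ℂ) (hB : B * B' = 1) (κ : ℂ)
    (ε : Finset (Fin n) → ℂ) (hε : ∀ s, Even s.card → B * mono Γ s = ε s • (mono Γ s * B))
    (hX : B * (∑ s, c s • mono Γ s) = κ • ((∑ s, c s • mono Γ s) * B)) :
    ∀ s, c s * (ε s - κ) = 0 := by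
  refine h.indep (c := fun s => c s * (ε s - κ)) (fun s hs => by simp only [hc s hs, zero_mul]) ?_
  have h1 : (∑ s, (c s * (ε s - κ)) • mono Γ s) * B = 0 := by
    have h2 : (∑ s, (c s * (ε s - κ)) • mono Γ s) * B =
        B * (∑ s, c s • mono Γ s) - κ • ((∑ s, c s • mono Γ s) * B) := by
      rw [Finset.sum_mul, Finset.mul_sum, Finset.sum_mul, Finset.smul_sum,
        ← Finset.sum_sub_distrib]
      refine Finset.sum_congr rfl fun s _ => ?_
      by_cases hs : Even s.card
      · rw [mul_smul_comm, hε s hs, smul_mul_assoc, smul_mul_assoc, smul_smul, smul_smul,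
          ← sub_smul]
        congr 1
        ring
      · rw [hc s hs]
        simp
    rw [h2, hX, sub_self]
  calc ∑ s, (c s * (ε s - κ)) • mono Γ s = ((∑ s, (c s * (ε s - κ)) • mono Γ s) * B) * B' := by
        rw [mul_assoc, hB, mul_one]
    _ = 0 := by rw [h1, zero_mul]

theorem even_coef (hΓ : Clf Γ) {Z : Matrix N N ℂ} (hZ : ∀ d, InD Γ d → Z * d = d * Z) :
    ∃ c : Finset (Fin n) → ℂ, (∀ s, ¬ Even s.card → c s = 0) ∧ Z = ∑ s, c s • mono Γ s :=
  exists_coef (Pool.Agent.Y165.TS.t_comm Pool.Agent.Y259.TS.t_mono N n Γ hΓ Z hZ)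

end

theorem t_cen : Pool.Agent.Y89.TW.S_cen := by
  intro N _ _ n Γ hΓ hn Z hZ
  rcases isEmpty_or_nonempty N with hN | hN
  · have hsub : ∀ A B : Matrix N N ℂ, A = B := fun A B => by
      ext i
      exact isEmptyElim i
    refine ⟨fun _ => ?_, fun k _ _ _ => ?_⟩
    · rw [hsub Z 0]
      exact Submodule.zero_mem _
    · rw [hsub (Z * Γ k) 0]
      exact Submodule.zero_mem _
  have h := mon hΓ
  refine ⟨fun hcm => ?_, fun k _ hG hcm => ?_⟩
  · obtain ⟨c, hc, hZc⟩ := even_coef hΓ hcm
    -- only the extreme monomials occur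
    have hex : ∀ s : Finset (Fin n), c s ≠ 0 → s = ∅ ∨ s = univ := by
      intro s hs
      by_contra hcon
      rw [not_or] at hcon
      obtain ⟨i, hi⟩ := Finset.nonempty_iff_ne_empty.2 hcon.1
      obtain ⟨j, hj⟩ : ∃ j, j ∉ s := by
        by_contra hall
        push Not at hall
        exact hcon.2 (Finset.eq_univ_iff_forall.2 hall)
      have hij : i ≠ j := by
        rintro rfl
        exact hj hi
      have h1 := kill h hc (Γ i * Γ j) (-(Γ i * Γ j))
        (by rw [mul_neg, h.pair_sq hij, neg_neg]) 1 (fun s => sg i s * sg j s)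
        (fun t ht => by
          rw [mul_assoc, gen h ht j, mul_smul_comm, ← mul_assoc, gen h ht i, smul_mul_assoc,
            smul_smul, mul_assoc, mul_comm (sg j t)])
        (by rw [← hZc, one_smul, hZ i j]) s
      have h2 : sg i s * sg j s - 1 = (-2 : ℂ) := by
        unfold sg
        rw [if_pos hi, if_neg hj]
        norm_num
      simp only [h2] at h1
      exact hs ((mul_eq_zero.1 h1).resolve_right (by norm_num))
    rw [hZc]
    refine Submodule.sum_mem _ fun s _ => ?_
    by_cases hs : c s = 0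
    · rw [hs, zero_smul]
      exact Submodule.zero_mem _
    · refine Submodule.smul_mem _ _ (Submodule.subset_span ?_)
      rcases hex s hs with rfl | rfl
      · exact Or.inl h.e
      · right
        refine ⟨?_, rfl⟩
        by_contra hev
        apply hs
        apply hc
        rwa [Finset.card_univ, Fintype.card_fin]
  · obtain ⟨c, hc, hXc⟩ := even_coef hΓ hcm
    obtain ⟨X, hX⟩ : ∃ X, X = Z * Γ k := ⟨_, rfl⟩
    rw [← hX] at hXc ⊢
    -- exchange with the generators
    have hk : Γ k * X = X * Γ k := by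
      rw [hX, ← mul_assoc, ← hG k]
    have hi : ∀ i, i ≠ k → Γ i * X = (-1 : ℂ) • (X * Γ i) := by
      intro i hik
      rw [hX, ← mul_assoc, ← hG i, mul_assoc, hΓ.anti i k hik, mul_neg, ← mul_assoc, neg_one_smul]
    have hex : ∀ s : Finset (Fin n), c s ≠ 0 → s = univ.erase k := by
      intro s hs
      ext i
      rw [Finset.mem_erase]
      constructor
      · intro his
        refine ⟨?_, Finset.mem_univ i⟩
        rintro rfl
        have h1 := kill h hc (Γ i) (Γ i) (h.sq i) 1 (fun s => sg i s)
          (fun t ht => gen h ht i) (by rw [← hXc, one_smul, hk]) s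
        have h2 : sg i s - 1 = (-2 : ℂ) := by
          unfold sg
          rw [if_pos his]
          norm_num
        simp only [h2] at h1
        exact hs ((mul_eq_zero.1 h1).resolve_right (by norm_num))
      · rintro ⟨hik, -⟩
        by_contra his
        have h1 := kill h hc (Γ i) (Γ i) (h.sq i) (-1) (fun s => sg i s)
          (fun t ht => gen h ht i) (by rw [← hXc, hi i hik]) s
        have h2 : sg i s - -1 = (2 : ℂ) := by
          unfold sg
          rw [if_neg his]
          norm_num
        simp only [h2] at h1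
        exact hs ((mul_eq_zero.1 h1).resolve_right (by norm_num))
    rw [hXc]
    refine Submodule.sum_mem _ fun s _ => ?_
    by_cases hs : c s = 0
    · rw [hs, zero_smul]
      exact Submodule.zero_mem _
    · refine Submodule.smul_mem _ _ (Submodule.subset_span ?_)
      rw [hex s hs]
      rfl

end Pool.Agent.Y936.TW
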